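import Pool.Agent.R743.Cheb.Step

/-!
The iteration of the corrugation steps: a `C¹` map of the plane with unit partial derivatives whose
mixed difference does not vanish.
-/

set_option autoImplicit false

namespace Pool.Agent.R743.Cheb

open Real Set Filter Topology
open scoped ContDiff

/-- state of the iteration: both defects are about `δ` -/
structure St (δ : ℝ) (f : P → ℂ) : Prop where
  good : Good f
  lo1 : ∀ x, 3 / 4 * δ ≤ 1 - ‖fderiv ℝ f x (1, 0)‖ ^ 2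
  hi1 : ∀ x, 1 - ‖fderiv ℝ f x (1, 0)‖ ^ 2 ≤ 5 / 4 * δ
  lo2 : ∀ x, 3 / 4 * δ ≤ 1 - ‖fderiv ℝ f x (0, 1)‖ ^ 2
  hi2 : ∀ x, 1 - ‖fderiv ℝ f x (0, 1)‖ ^ 2 ≤ 5 / 4 * δ

theorem half_le {z : ℂ} {t : ℝ} (h : 1 - ‖z‖ ^ 2 ≤ t) (ht : t ≤ 3 / 4) : 1 / 2 ≤ ‖z‖ := by
  by_contra hc
  push Not at hc
  nlinarith [norm_nonneg z]

theorem le_three_halves {z : ℂ} (h : 0 ≤ 1 - ‖z‖ ^ 2) : ‖z‖ ≤ 3 / 2 := by
  nlinarith [norm_nonneg z]

theorem St.next {δ : ℝ} {f : P → ℂ} (h : St δ f) (hδ : 0 < δ) (hδ1 : δ ≤ 1 / 1024) {ε : ℝ}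
    (hε : 0 < ε) :
    ∃ g : P → ℂ, St (δ / 4) g ∧ (∀ x, ‖g x - f x‖ ≤ ε) ∧
      (∀ x, ‖fderiv ℝ g x (1, 0) - fderiv ℝ f x (1, 0)‖ ≤ 2 * √δ) ∧
      ∀ x, ‖fderiv ℝ g x (0, 1) - fderiv ℝ f x (0, 1)‖ ≤ 2 * √δ := by
  set ε' : ℝ := min (ε / 2) (δ / 400) with hε'
  have e0 : 0 < ε' := lt_min (by positivity) (by positivity)
  have e1 : ε' ≤ ε / 2 := min_le_left _ _
  have e2 : ε' ≤ δ / 400 := min_le_right _ _
  have e3 : ε' ≤ 1 := by linarith
  set D : ℝ := 11 / 10 * δ with hD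
  have hsq : √(2 * D) + D + ε' + ε' ≤ 2 * √δ := by
    have h1 : √(2 * D) ≤ 3 / 2 * √δ := by
      rw [Real.sqrt_le_left (by positivity), mul_pow, Real.sq_sqrt hδ.le]
      linarith
    have h2 : √δ ≤ 1 / 32 := by
      rw [Real.sqrt_le_left (by norm_num)]
      linarith
    have h3 : δ = √δ * √δ := (Real.mul_self_sqrt hδ.le).symm
    have h4 : 0 ≤ √δ := Real.sqrt_nonneg _
    have h5 : D + ε' + ε' ≤ 2 * δ := by linarith
    nlinarith
  obtain ⟨g1, G1, a1, a2, a3, a4⟩ := step (ℓ := ContinuousLinearMap.fst ℝ ℝ ℝ) (e := (1, 0))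
    (e' := (0, 1)) (k := 1) (l := 0) (by simp) (by simp) (by simp) (by simp) h.good
    (δ := δ / 4) (D := D) (ε := ε') (by positivity) (by linarith)
    (fun x => by have := h.lo1 x; linarith) (fun x => by have := h.hi1 x; linarith)
    (fun x => half_le (h.hi1 x) (by linarith)) e0 e3
  have b1 : ∀ x, |‖fderiv ℝ g1 x (0, 1)‖ ^ 2 - ‖fderiv ℝ f x (0, 1)‖ ^ 2| ≤ 4 * ε' := by
    intro x
    have := sq_close (z := fderiv ℝ f x (0, 1)) (η := fderiv ℝ g1 x (0, 1) - fderiv ℝ f x (0, 1))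
      (le_three_halves (by have := h.lo2 x; linarith)) (a2 x) e3
    simpa using this
  obtain ⟨g2, G2, c1, c2, c3, c4⟩ := step (ℓ := ContinuousLinearMap.snd ℝ ℝ ℝ) (e := (0, 1))
    (e' := (1, 0)) (k := 0) (l := 1) (by simp) (by simp) (by simp) (by simp) G1
    (δ := δ / 4) (D := D) (ε := ε') (by positivity) (by linarith)
    (fun x => by have := h.lo2 x; have := (abs_le.1 (b1 x)).2; linarith)
    (fun x => by have := h.hi2 x; have := (abs_le.1 (b1 x)).1; linarith)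
    (fun x => half_le (t := 3 * δ) (by
      have := h.hi2 x; have := (abs_le.1 (b1 x)).1; linarith) (by linarith)) e0 e3
  have hDD : D ^ 2 ≤ δ / 500 := by
    rw [hD]
    nlinarith
  have b2 : ∀ x, |‖fderiv ℝ g2 x (1, 0)‖ ^ 2 - ‖fderiv ℝ g1 x (1, 0)‖ ^ 2| ≤ 4 * ε' := by
    intro x
    have := sq_close (z := fderiv ℝ g1 x (1, 0)) (η := fderiv ℝ g2 x (1, 0) - fderiv ℝ g1 x (1, 0))
      (le_three_halves (by have := (abs_le.1 (a4 x)).1; linarith)) (c2 x) e3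
    simpa using this
  refine ⟨g2, ⟨G2, ?_, ?_, ?_, ?_⟩, ?_, ?_, ?_⟩
  · intro x
    have h1 := (abs_le.1 (a4 x)).1
    have h2 := (abs_le.1 (b2 x)).2
    linarith
  · intro x
    have h1 := (abs_le.1 (a4 x)).2
    have h2 := (abs_le.1 (b2 x)).1
    linarith
  · intro x
    have h1 := (abs_le.1 (c4 x)).1
    linarith
  · intro x
    have h1 := (abs_le.1 (c4 x)).2
    linarith
  · intro x
    have : g2 x - f x = (g2 x - g1 x) + (g1 x - f x) := by ring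
    rw [this]
    refine (norm_add_le _ _).trans ?_
    linarith [a1 x, c1 x]
  · intro x
    have : fderiv ℝ g2 x (1, 0) - fderiv ℝ f x (1, 0) =
      (fderiv ℝ g2 x (1, 0) - fderiv ℝ g1 x (1, 0)) +
        (fderiv ℝ g1 x (1, 0) - fderiv ℝ f x (1, 0)) := by ring
    rw [this]
    refine (norm_add_le _ _).trans ?_
    linarith [a3 x, c2 x]
  · intro x
    have : fderiv ℝ g2 x (0, 1) - fderiv ℝ f x (0, 1) =
      (fderiv ℝ g2 x (0, 1) - fderiv ℝ g1 x (0, 1)) +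
        (fderiv ℝ g1 x (0, 1) - fderiv ℝ f x (0, 1)) := by ring
    rw [this]
    refine (norm_add_le _ _).trans ?_
    linarith [a2 x, c3 x]

end Pool.Agent.R743.Cheb
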