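import Pool.Agent.R743.Cheb.Iter

/-!
The limit of the iteration.
-/

set_option autoImplicit false

namespace Pool.Agent.R743.Cheb

open Real Set Filter Topology
open scoped ContDiff

/-- size of the first defect -/
noncomputable def d0 : ℝ := 1 / 1024

/-- amplitude of the first perturbation -/
noncomputable def kap : ℝ := 1 / 102400

/-- the first map -/
noncomputable def f0 (x : P) : ℂ :=
  ((√(1 - d0) * x.1 : ℝ) : ℂ) +
    ((√(1 - d0) * x.2 + kap * (Real.sin (2 * π * x.1) * Real.sin (2 * π * x.2)) : ℝ) : ℂ) *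
      Complex.I

theorem f0_smooth : ContDiff ℝ ∞ f0 := by
  unfold f0
  apply ContDiff.add
  · exact Complex.ofRealCLM.contDiff.comp (contDiff_const.mul contDiff_fst)
  · refine ContDiff.mul (Complex.ofRealCLM.contDiff.comp ?_) contDiff_const
    refine (contDiff_const.mul contDiff_snd).add (contDiff_const.mul (ContDiff.mul ?_ ?_))
    · exact Real.contDiff_sin.comp (contDiff_const.mul contDiff_fst)
    · exact Real.contDiff_sin.comp (contDiff_const.mul contDiff_snd)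

theorem f0_deriv (x w : P) : fderiv ℝ f0 x w =
    ((√(1 - d0) * w.1 : ℝ) : ℂ) +
    ((√(1 - d0) * w.2 + kap * (2 * π * Real.cos (2 * π * x.1) * Real.sin (2 * π * x.2) * w.1 +
      2 * π * Real.sin (2 * π * x.1) * Real.cos (2 * π * x.2) * w.2) : ℝ) : ℂ) * Complex.I := by
  have h1 : HasFDerivAt (fun x : P => x.1) (ContinuousLinearMap.fst ℝ ℝ ℝ) x := hasFDerivAt_fst
  have h2 : HasFDerivAt (fun x : P => x.2) (ContinuousLinearMap.snd ℝ ℝ ℝ) x := hasFDerivAt_snd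
  have h3 := (h1.const_mul (2 * π)).sin
  have h4 := (h2.const_mul (2 * π)).sin
  have h5 := (h2.const_mul (√(1 - d0))).add ((h3.mul h4).const_mul kap)
  have h6 := h1.const_mul (√(1 - d0))
  have h7 := (Complex.ofRealCLM.hasFDerivAt.comp x h6).add
    ((Complex.ofRealCLM.hasFDerivAt.comp x h5).mul_const Complex.I)
  have h8 : HasFDerivAt f0 _ x := h7
  rw [h8.fderiv]
  simp only [add_apply, ContinuousLinearMap.comp_apply, smul_apply, Complex.ofRealCLM_apply,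
    smul_eq_mul, ContinuousLinearMap.coe_fst', ContinuousLinearMap.coe_snd']
  push_cast
  ring

theorem f0_per : Per (fderiv ℝ f0) := by
  have hc : ∀ t : ℝ, Real.cos (2 * π * (t + 1)) = Real.cos (2 * π * t) := fun t => by
    rw [mul_add, mul_one, Real.cos_add_two_pi]
  have hs : ∀ t : ℝ, Real.sin (2 * π * (t + 1)) = Real.sin (2 * π * t) := fun t => by
    rw [mul_add, mul_one, Real.sin_add_two_pi]
  constructor
  · intro x
    ext <;> simp only [ContinuousLinearMap.comp_apply] <;> rw [f0_deriv, f0_deriv] <;>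
      simp only [Prod.fst_add, Prod.snd_add, add_zero, hc, hs]
  · intro x
    ext <;> simp only [ContinuousLinearMap.comp_apply] <;> rw [f0_deriv, f0_deriv] <;>
      simp only [Prod.fst_add, Prod.snd_add, add_zero, hc, hs]

theorem sc_bound (a b : ℝ) : |2 * π * Real.sin a * Real.cos b| ≤ 7 := by
  rw [abs_mul, abs_mul, abs_of_pos (by positivity)]
  have h1 := Real.abs_sin_le_one a
  have h2 := Real.abs_cos_le_one b
  have h3 := Real.pi_lt_d2
  have h4 := Real.pi_pos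
  have h5 : |Real.sin a| * |Real.cos b| ≤ 1 := by
    nlinarith [abs_nonneg (Real.sin a), abs_nonneg (Real.cos b)]
  nlinarith [abs_nonneg (Real.sin a), abs_nonneg (Real.cos b),
    mul_nonneg (abs_nonneg (Real.sin a)) (abs_nonneg (Real.cos b))]

theorem sq1 : √(1 - d0) ^ 2 = 1 - d0 := Real.sq_sqrt (by unfold d0; norm_num)

theorem sq2 : 1 - d0 ≤ √(1 - d0) := by
  have h := sq1
  have h0 : 0 ≤ √(1 - d0) := Real.sqrt_nonneg _
  have h1 : √(1 - d0) ≤ 1 := by
    rw [Real.sqrt_le_left (by norm_num)]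
    unfold d0; norm_num
  nlinarith

theorem sq3 : √(1 - d0) ≤ 1 := by
  rw [Real.sqrt_le_left (by norm_num)]
  unfold d0; norm_num

theorem f0_u (x : P) : ∃ t : ℝ, |t| ≤ 7 * kap ∧
    fderiv ℝ f0 x (1, 0) = ((√(1 - d0) : ℝ) : ℂ) + (t : ℂ) * Complex.I := by
  refine ⟨kap * (2 * π * Real.sin (2 * π * x.2) * Real.cos (2 * π * x.1)), ?_, ?_⟩
  · rw [abs_mul, mul_comm]
    have h0 : |kap| = kap := abs_of_pos (by unfold kap; norm_num)
    rw [h0]
    exact mul_le_mul_of_nonneg_right (sc_bound _ _) (by unfold kap; norm_num)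
  · rw [f0_deriv]
    push_cast
    ring

theorem f0_v (x : P) : ∃ t : ℝ, |t| ≤ 7 * kap ∧
    fderiv ℝ f0 x (0, 1) = ((√(1 - d0) + t : ℝ) : ℂ) * Complex.I := by
  refine ⟨kap * (2 * π * Real.sin (2 * π * x.1) * Real.cos (2 * π * x.2)), ?_, ?_⟩
  · rw [abs_mul, mul_comm]
    have h0 : |kap| = kap := abs_of_pos (by unfold kap; norm_num)
    rw [h0]
    exact mul_le_mul_of_nonneg_right (sc_bound _ _) (by unfold kap; norm_num)
  · rw [f0_deriv]
    push_cast
    ring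

theorem f0_St : St d0 f0 := by
  have hu : ∀ x, ∃ t : ℝ, |t| ≤ 7 * kap ∧ 1 - ‖fderiv ℝ f0 x (1, 0)‖ ^ 2 = d0 - t ^ 2 := by
    intro x
    obtain ⟨t, h1, h2⟩ := f0_u x
    refine ⟨t, h1, ?_⟩
    rw [h2, ← Complex.normSq_eq_norm_sq, Complex.normSq_add_mul_I, sq1]
    ring
  have hv : ∀ x, ∃ t : ℝ, |t| ≤ 7 * kap ∧
      1 - ‖fderiv ℝ f0 x (0, 1)‖ ^ 2 = d0 - 2 * √(1 - d0) * t - t ^ 2 := by
    intro x
    obtain ⟨t, h1, h2⟩ := f0_v x
    refine ⟨t, h1, ?_⟩
    rw [h2, norm_mul, Complex.norm_I, mul_one, Complex.norm_real, Real.norm_eq_abs, sq_abs,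
      add_sq, sq1]
    ring
  have hk : (7 : ℝ) * kap ≤ d0 / 14 := by unfold kap d0; norm_num
  have hk0 : (0 : ℝ) ≤ 7 * kap := by unfold kap; norm_num
  have hd : d0 ≤ 1 := by unfold d0; norm_num
  have hd0 : 0 < d0 := by unfold d0; norm_num
  have h3 := sq3
  have h4 : 0 ≤ √(1 - d0) := Real.sqrt_nonneg _
  refine ⟨⟨f0_smooth, f0_per⟩, ?_, ?_, ?_, ?_⟩
  · intro x
    obtain ⟨t, h1, h2⟩ := hu x
    rw [h2]
    have := abs_le.1 h1
    nlinarith
  · intro x
    obtain ⟨t, h1, h2⟩ := hu x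
    rw [h2]
    nlinarith [sq_nonneg t]
  · intro x
    obtain ⟨t, h1, h2⟩ := hv x
    rw [h2]
    have h5 := abs_le.1 h1
    have h6 : √(1 - d0) * t ≤ d0 / 14 := by nlinarith
    nlinarith
  · intro x
    obtain ⟨t, h1, h2⟩ := hv x
    rw [h2]
    have h5 := abs_le.1 h1
    have h6 : -(d0 / 14) ≤ √(1 - d0) * t := by nlinarith
    nlinarith [sq_nonneg t]

/-- the sequence of maps -/
theorem exists_seq : ∃ F : ℕ → P → ℂ, F 0 = f0 ∧ ∀ k, St (d0 / 4 ^ k) (F k) ∧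
    (∀ x, ‖F (k + 1) x - F k x‖ ≤ kap / 16 / 2 ^ k) ∧
    (∀ x, ‖fderiv ℝ (F (k + 1)) x (1, 0) - fderiv ℝ (F k) x (1, 0)‖ ≤ 1 / 16 / 2 ^ k) ∧
    ∀ x, ‖fderiv ℝ (F (k + 1)) x (0, 1) - fderiv ℝ (F k) x (0, 1)‖ ≤ 1 / 16 / 2 ^ k := by
  have hd0 : 0 < d0 := by unfold d0; norm_num
  have hk0 : 0 < kap := by unfold kap; norm_num
  have hle : ∀ k : ℕ, d0 / 4 ^ k ≤ 1 / 1024 := fun k => by
    rw [div_le_iff₀ (by positivity)]
    have h1 : (1 : ℝ) ≤ 4 ^ k := one_le_pow₀ (by norm_num)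
    unfold d0
    linarith
  have hnext : ∀ (k : ℕ) (f : {f : P → ℂ // St (d0 / 4 ^ k) f}),
      ∃ g : {g : P → ℂ // St (d0 / 4 ^ (k + 1)) g},
      (∀ x, ‖g.1 x - f.1 x‖ ≤ kap / 16 / 2 ^ k) ∧
      (∀ x, ‖fderiv ℝ g.1 x (1, 0) - fderiv ℝ f.1 x (1, 0)‖ ≤ 1 / 16 / 2 ^ k) ∧
      ∀ x, ‖fderiv ℝ g.1 x (0, 1) - fderiv ℝ f.1 x (0, 1)‖ ≤ 1 / 16 / 2 ^ k := by
    intro k f
    obtain ⟨g, h1, h2, h3, h4⟩ := f.2.next (by positivity) (hle k) (ε := kap / 16 / 2 ^ k)
      (by positivity)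
    have hs : 2 * √(d0 / 4 ^ k) = 1 / 16 / 2 ^ k := by
      have : d0 / 4 ^ k = (1 / 32 / 2 ^ k) ^ 2 := by
        unfold d0
        rw [div_pow, ← pow_mul, mul_comm k 2, pow_mul]
        norm_num
      rw [this, Real.sqrt_sq (by positivity)]
      ring
    refine ⟨⟨g, ?_⟩, h2, fun x => hs ▸ h3 x, fun x => hs ▸ h4 x⟩
    rw [pow_succ, ← div_div]
    exact h1
  choose nx hnx using hnext
  let F : (k : ℕ) → {f : P → ℂ // St (d0 / 4 ^ k) f} := fun k =>
    Nat.rec (motive := fun k => {f : P → ℂ // St (d0 / 4 ^ k) f})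
      ⟨f0, by rw [pow_zero, div_one]; exact f0_St⟩ (fun k f => nx k f) k
  refine ⟨fun k => (F k).1, rfl, fun k => ⟨(F k).2, ?_, ?_, ?_⟩⟩
  · exact (hnx k (F k)).1
  · exact (hnx k (F k)).2.1
  · exact (hnx k (F k)).2.2

theorem opNorm_le {L : P →L[ℝ] ℂ} {c : ℝ} (hc : 0 ≤ c) (h1 : ‖L (1, 0)‖ ≤ c)
    (h2 : ‖L (0, 1)‖ ≤ c) : ‖L‖ ≤ 2 * c := by
  refine L.opNorm_le_bound (by positivity) fun w => ?_
  have e : w = w.1 • (1, 0) + w.2 • (0, 1) := by ext <;> simp
  have e2 : L w = w.1 • L (1, 0) + w.2 • L (0, 1) := by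
    conv_lhs => rw [e]
    rw [map_add, map_smul, map_smul]
  rw [e2]
  refine (norm_add_le _ _).trans ?_
  rw [norm_smul, norm_smul]
  have h3 : ‖w.1‖ ≤ ‖w‖ := norm_fst_le w
  have h4 : ‖w.2‖ ≤ ‖w‖ := norm_snd_le w
  have h5 := mul_le_mul h3 h1 (norm_nonneg _) (norm_nonneg _)
  have h6 := mul_le_mul h4 h2 (norm_nonneg _) (norm_nonneg _)
  linarith

/-- **The map.** A `C¹` map of the plane with unit partial derivatives, close to `1` and `i`, with a
mixed difference that does not vanish. -/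
theorem exists_map : ∃ f : P → ℂ, ContDiff ℝ 1 f ∧
    (∀ x, ‖fderiv ℝ f x (1, 0)‖ = 1) ∧ (∀ x, ‖fderiv ℝ f x (0, 1)‖ = 1) ∧
    (∀ x, ‖fderiv ℝ f x (1, 0) - 1‖ ≤ 1 / 4) ∧ (∀ x, ‖fderiv ℝ f x (0, 1) - Complex.I‖ ≤ 1 / 4) ∧
    f (1 / 4, 1 / 4) - f (1 / 4, 0) - f (0, 1 / 4) + f (0, 0) ≠ 0 := by
  obtain ⟨F, F0, hF⟩ := exists_seq
  have hd0 : 0 < d0 := by unfold d0; norm_num
  have hk0 : 0 < kap := by unfold kap; norm_num
  set φ : ℕ → P → ℂ := fun k x => F (k + 1) x - F k x with hφ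
  have hdiff : ∀ k x, DifferentiableAt ℝ (F k) x := fun k x =>
    (hF k).1.good.smooth.differentiable (by simp) x
  have hφd : ∀ k x, fderiv ℝ (φ k) x = fderiv ℝ (F (k + 1)) x - fderiv ℝ (F k) x := fun k x =>
    fderiv_fun_sub (hdiff _ _) (hdiff _ _)
  have hφs : ∀ k, ContDiff ℝ 1 (φ k) := fun k =>
    ((hF (k + 1)).1.good.smooth.sub (hF k).1.good.smooth).of_le (by simp)
  have hφn : ∀ k x, ‖φ k x‖ ≤ kap / 16 / 2 ^ k := fun k x => (hF k).2.1 x
  have hφn' : ∀ k x, ‖fderiv ℝ (φ k) x‖ ≤ 1 / 8 / 2 ^ k := fun k x => by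
    rw [hφd]
    refine (opNorm_le (c := 1 / 16 / 2 ^ k) (by positivity) ((hF k).2.2.1 x)
      ((hF k).2.2.2 x)).trans (le_of_eq (by ring))
  have hgeo : ∀ c : ℝ, Summable fun k : ℕ => c / 2 ^ k := fun c => by
    have := (summable_geometric_two).mul_left c
    refine this.congr fun k => ?_
    rw [one_div, inv_pow, div_eq_mul_inv]
  have hgeo2 : ∀ c : ℝ, ∑' k : ℕ, c / 2 ^ k = 2 * c := fun c => by
    have h : ∑' k : ℕ, c / 2 ^ k = c * ∑' k : ℕ, (1 / 2 : ℝ) ^ k := by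
      rw [← tsum_mul_left]
      refine tsum_congr fun k => ?_
      rw [one_div, inv_pow, div_eq_mul_inv]
    rw [h, tsum_geometric_two, mul_comm]
  set G : P → ℂ := fun x => ∑' k, φ k x with hG
  have hGs : ContDiff ℝ 1 G := by
    refine contDiff_tsum (v := fun m k => if m = 0 then kap / 16 / 2 ^ k else 1 / 8 / 2 ^ k)
      (fun k => hφs k) ?_ ?_
    · intro m _
      by_cases hm : m = 0
      · simp only [hm, if_true]
        exact hgeo _
      · simp only [hm, if_false]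
        exact hgeo _
    · intro m k x hm
      have hm' : m ≤ 1 := by exact_mod_cast hm
      interval_cases m
      · simp only [if_true]
        rw [norm_iteratedFDeriv_zero]
        exact hφn k x
      · simp only [one_ne_zero, if_false]
        rw [norm_iteratedFDeriv_one]
        exact hφn' k x
  have hGd : ∀ x, HasFDerivAt G (∑' k, fderiv ℝ (φ k) x) x := by
    intro x
    refine hasFDerivAt_tsum (x₀ := 0) (hgeo (1 / 8)) (fun k x => ?_) hφn' ?_ x
    · exact ((hφs k).differentiable (by simp) x).hasFDerivAt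
    · exact Summable.of_norm_bounded (hgeo (kap / 16)) fun k => hφn k 0
  set f : P → ℂ := fun x => f0 x + G x with hf
  have hf0 : ∀ x, HasFDerivAt f0 (fderiv ℝ f0 x) x := fun x =>
    (f0_smooth.differentiable (by simp) x).hasFDerivAt
  have hfd : ∀ x, HasFDerivAt f (fderiv ℝ f0 x + ∑' k, fderiv ℝ (φ k) x) x := fun x =>
    (hf0 x).add (hGd x)
  -- convergence of the differentials
  have hsum : ∀ x, Summable fun k => fderiv ℝ (φ k) x := fun x =>
    Summable.of_norm_bounded (hgeo (1 / 8)) fun k => hφn' k x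
  have htend : ∀ x, Tendsto (fun k => fderiv ℝ (F k) x) atTop (𝓝 (fderiv ℝ f x)) := by
    intro x
    have h1 := ((hsum x).hasSum.tendsto_sum_nat).const_add (fderiv ℝ f0 x)
    rw [(hfd x).fderiv]
    refine h1.congr fun n => ?_
    induction n with
    | zero => simp [F0]
    | succ n ih =>
      rw [Finset.sum_range_succ, ← add_assoc, ih, hφd]
      abel
  have htd : Tendsto (fun k : ℕ => 5 / 4 * (d0 / 4 ^ k)) atTop (𝓝 0) := by
    have h1 : Tendsto (fun k : ℕ => ((1 / 4 : ℝ)) ^ k) atTop (𝓝 0) :=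
      tendsto_pow_atTop_nhds_zero_of_lt_one (by norm_num) (by norm_num)
    have h2 := h1.const_mul (5 / 4 * d0)
    rw [mul_zero] at h2
    refine h2.congr fun k => ?_
    rw [one_div, inv_pow]
    ring
  have hunit : ∀ x w, (∀ k, 0 ≤ 1 - ‖fderiv ℝ (F k) x w‖ ^ 2) →
      (∀ k, 1 - ‖fderiv ℝ (F k) x w‖ ^ 2 ≤ 5 / 4 * (d0 / 4 ^ k)) → ‖fderiv ℝ f x w‖ = 1 := by
    intro x w h1 h2
    have h3 : Tendsto (fun k => 1 - ‖fderiv ℝ (F k) x w‖ ^ 2) atTop
        (𝓝 (1 - ‖fderiv ℝ f x w‖ ^ 2)) := by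
      have h4 : Tendsto (fun k => fderiv ℝ (F k) x w) atTop (𝓝 (fderiv ℝ f x w)) :=
        ((ContinuousLinearMap.apply ℝ ℂ w).continuous.tendsto _).comp (htend x)
      exact (h4.norm.pow 2).const_sub 1
    have h5 := squeeze_zero h1 h2 htd
    have h6 := tendsto_nhds_unique h3 h5
    have h7 : ‖fderiv ℝ f x w‖ ^ 2 = 1 := by linarith
    exact (pow_eq_one_iff_of_nonneg (norm_nonneg _) two_ne_zero).1 h7
  have hclose : ∀ x w, (∀ k, ‖fderiv ℝ (φ k) x w‖ ≤ 1 / 16 / 2 ^ k) →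
      ‖fderiv ℝ f x w - fderiv ℝ f0 x w‖ ≤ 1 / 8 := by
    intro x w h
    have h1 : fderiv ℝ f x w - fderiv ℝ f0 x w = ∑' k, fderiv ℝ (φ k) x w := by
      rw [(hfd x).fderiv, add_apply, add_sub_cancel_left]
      exact (ContinuousLinearMap.apply ℝ ℂ w).map_tsum (hsum x)
    rw [h1]
    refine (tsum_of_norm_bounded (g := fun k : ℕ => 1 / 16 / 2 ^ k) (a := 1 / 8) ?_ h)
    have := (hgeo (1 / 16)).hasSum
    rw [hgeo2] at this
    convert this using 1
    norm_num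
  have hGn : ∀ x, ‖G x‖ ≤ kap / 8 := by
    intro x
    refine (tsum_of_norm_bounded (g := fun k : ℕ => kap / 16 / 2 ^ k) (a := kap / 8) ?_
      (fun k => hφn k x))
    have := (hgeo (kap / 16)).hasSum
    rw [hgeo2] at this
    convert this using 1
    ring
  have hkap : 7 * kap ≤ 1 / 1024 := by unfold kap; norm_num
  have h2 := sq2
  have h3 := sq3
  have hd1 : d0 = 1 / 1024 := rfl
  refine ⟨f, (f0_smooth.of_le (by simp)).add hGs, ?_, ?_, ?_, ?_, ?_⟩
  · intro x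
    refine hunit x (1, 0) (fun k => ?_) fun k => (hF k).1.hi1 x
    exact le_trans (by positivity) ((hF k).1.lo1 x)
  · intro x
    refine hunit x (0, 1) (fun k => ?_) fun k => (hF k).1.hi2 x
    exact le_trans (by positivity) ((hF k).1.lo2 x)
  · intro x
    have h4 := hclose x (1, 0) fun k => by
      rw [hφd]
      exact (hF k).2.2.1 x
    obtain ⟨t, ht, e⟩ := f0_u x
    have h5 : fderiv ℝ f x (1, 0) - 1 = (fderiv ℝ f x (1, 0) - fderiv ℝ f0 x (1, 0)) +
        (((√(1 - d0) - 1 : ℝ) : ℂ) + (t : ℂ) * Complex.I) := by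
      rw [e]
      push_cast
      ring
    rw [h5]
    refine (norm_add_le _ _).trans ?_
    have h6 : ‖((√(1 - d0) - 1 : ℝ) : ℂ) + (t : ℂ) * Complex.I‖ ≤ 1 / 8 := by
      refine (norm_add_le _ _).trans ?_
      rw [norm_mul, Complex.norm_I, mul_one, Complex.norm_real, Complex.norm_real,
        Real.norm_eq_abs, Real.norm_eq_abs, abs_of_nonpos (by linarith)]
      linarith
    linarith
  · intro x
    have h4 := hclose x (0, 1) fun k => by
      rw [hφd]
      exact (hF k).2.2.2 x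
    obtain ⟨t, ht, e⟩ := f0_v x
    have h5 : fderiv ℝ f x (0, 1) - Complex.I = (fderiv ℝ f x (0, 1) - fderiv ℝ f0 x (0, 1)) +
        (((√(1 - d0) - 1 : ℝ) : ℂ) * Complex.I + (t : ℂ) * Complex.I) := by
      rw [e]
      push_cast
      ring
    rw [h5]
    refine (norm_add_le _ _).trans ?_
    have h6 : ‖((√(1 - d0) - 1 : ℝ) : ℂ) * Complex.I + (t : ℂ) * Complex.I‖ ≤ 1 / 8 := by
      refine (norm_add_le _ _).trans ?_
      rw [norm_mul, norm_mul, Complex.norm_I, mul_one, mul_one, Complex.norm_real,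
        Complex.norm_real, Real.norm_eq_abs, Real.norm_eq_abs, abs_of_nonpos (by linarith)]
      linarith
    linarith
  · intro h
    have e : f0 (1 / 4, 1 / 4) - f0 (1 / 4, 0) - f0 (0, 1 / 4) + f0 (0, 0) = (kap : ℂ) * Complex.I := by
      have s1 : Real.sin (2 * π * (1 / 4)) = 1 := by
        rw [show 2 * π * (1 / 4) = π / 2 by ring, Real.sin_pi_div_two]
      unfold f0
      simp only [s1, mul_zero, Real.sin_zero, mul_one, add_zero]
      push_cast
      ring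
    have e2 : (kap : ℂ) * Complex.I =
        -(G (1 / 4, 1 / 4) - G (1 / 4, 0) - G (0, 1 / 4) + G (0, 0)) := by
      rw [← e]
      have h' : f0 (1 / 4, 1 / 4) + G (1 / 4, 1 / 4) - (f0 (1 / 4, 0) + G (1 / 4, 0)) -
        (f0 (0, 1 / 4) + G (0, 1 / 4)) + (f0 (0, 0) + G (0, 0)) = 0 := h
      linear_combination h'
    have e3 := congrArg norm e2
    rw [norm_mul, Complex.norm_I, mul_one, Complex.norm_real, Real.norm_of_nonneg hk0.le,
      norm_neg] at e3
    have e4 : ‖G (1 / 4, 1 / 4) - G (1 / 4, 0) - G (0, 1 / 4) + G (0, 0)‖ ≤ kap / 2 := by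
      refine (norm_add_le _ _).trans ?_
      have h5 := norm_sub_le (G (1 / 4, 1 / 4) - G (1 / 4, 0)) (G (0, 1 / 4))
      have h6 := norm_sub_le (G (1 / 4, 1 / 4)) (G (1 / 4, 0))
      linarith [hGn (1 / 4, 1 / 4), hGn (1 / 4, 0), hGn (0, 1 / 4), hGn (0, 0)]
    linarith

end Pool.Agent.R743.Cheb
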