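import Pool.Agent.R743.Cheb.Lim

/-!
Rigidity: if the angle of a `C¹` chart is locally additive, the first partial derivative of the chart
does not depend, locally, on the second variable.
-/

set_option autoImplicit false

namespace Pool.Agent.R743.Cheb

open Real Set Filter Topology MeasureTheory
open scoped ContDiff ComplexConjugate

/-- a chart of the kind we construct -/
structure Chart (f : P → ℂ) : Prop where
  smooth : ContDiff ℝ 1 f
  u1 : ∀ x, ‖fderiv ℝ f x (1, 0)‖ = 1
  v1 : ∀ x, ‖fderiv ℝ f x (0, 1)‖ = 1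
  cu : ∀ x, ‖fderiv ℝ f x (1, 0) - 1‖ ≤ 1 / 4
  cv : ∀ x, ‖fderiv ℝ f x (0, 1) - Complex.I‖ ≤ 1 / 4

/-- the scalar product of the partial derivatives -/
noncomputable def sp (f : P → ℂ) (x : P) : ℝ :=
  (conj (fderiv ℝ f x (1, 0)) * fderiv ℝ f x (0, 1)).re

variable {f : P → ℂ}

theorem Chart.cont_dir (hf : Chart f) (w : P) : Continuous fun x => fderiv ℝ f x w :=
  (ContinuousLinearMap.apply ℝ ℂ w).continuous.comp (hf.smooth.continuous_fderiv (by simp))

theorem Chart.cont_sp (hf : Chart f) : Continuous (sp f) :=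
  Complex.continuous_re.comp ((Complex.continuous_conj.comp (hf.cont_dir _)).mul (hf.cont_dir _))

theorem Chart.im_pos (hf : Chart f) (x : P) :
    0 < (conj (fderiv ℝ f x (1, 0)) * fderiv ℝ f x (0, 1)).im := by
  set a := fderiv ℝ f x (1, 0) with ha
  set b := fderiv ℝ f x (0, 1) with hb
  have h1 : ‖conj a * b - Complex.I‖ ≤ 1 / 2 := by
    have e : conj a * b - Complex.I = conj a * (b - Complex.I) + (conj (a - 1)) * Complex.I := by
      rw [map_sub, map_one]
      ring
    rw [e]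
    refine (norm_add_le _ _).trans ?_
    rw [norm_mul, norm_mul, Complex.norm_I, mul_one, RCLike.norm_conj, RCLike.norm_conj]
    have h2 := hf.u1 x
    have h3 := hf.cu x
    have h4 := hf.cv x
    rw [← ha] at h2 h3
    rw [← hb] at h4
    rw [h2]
    linarith
  have h2 := Complex.abs_im_le_norm (conj a * b - Complex.I)
  rw [Complex.sub_im, Complex.I_im] at h2
  have h3 := (abs_le.1 (h2.trans h1)).1
  linarith

theorem Chart.sq_add (hf : Chart f) (x : P) :
    sp f x ^ 2 + (conj (fderiv ℝ f x (1, 0)) * fderiv ℝ f x (0, 1)).im ^ 2 = 1 := by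
  have h := Complex.normSq_apply (conj (fderiv ℝ f x (1, 0)) * fderiv ℝ f x (0, 1))
  rw [Complex.normSq_eq_norm_sq, norm_mul, RCLike.norm_conj, hf.u1, hf.v1] at h
  unfold sp
  nlinarith

theorem Chart.sp_lt (hf : Chart f) (x : P) : |sp f x| < 1 := by
  rw [← sq_lt_one_iff_abs_lt_one]
  have h1 := hf.sq_add x
  have h2 := hf.im_pos x
  nlinarith

/-- the angle -/
noncomputable def ang (f : P → ℂ) (x : P) : ℝ := Real.arcsin (sp f x)

theorem Chart.cont_ang (hf : Chart f) : Continuous (ang f) := Real.continuous_arcsin.comp hf.cont_sp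

theorem Chart.sin_ang (hf : Chart f) (x : P) : Real.sin (ang f x) = sp f x := by
  have h := abs_lt.1 (hf.sp_lt x)
  exact Real.sin_arcsin h.1.le h.2.le

theorem Chart.cos_ang (hf : Chart f) (x : P) :
    Real.cos (ang f x) = (conj (fderiv ℝ f x (1, 0)) * fderiv ℝ f x (0, 1)).im := by
  rw [ang, Real.cos_arcsin]
  have h1 := hf.sq_add x
  have h2 := hf.im_pos x
  rw [show 1 - sp f x ^ 2 = (conj (fderiv ℝ f x (1, 0)) * fderiv ℝ f x (0, 1)).im ^ 2 by linarith]
  exact Real.sqrt_sq h2.le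

theorem Chart.v_eq (hf : Chart f) (x : P) :
    fderiv ℝ f x (0, 1) = fderiv ℝ f x (1, 0) *
      (Complex.I * Complex.exp (-((ang f x : ℝ) : ℂ) * Complex.I)) := by
  have h1 : Complex.I * Complex.exp (-((ang f x : ℝ) : ℂ) * Complex.I) =
      conj (fderiv ℝ f x (1, 0)) * fderiv ℝ f x (0, 1) := by
    rw [Complex.exp_mul_I, Complex.cos_neg, Complex.sin_neg, ← Complex.ofReal_cos,
      ← Complex.ofReal_sin, hf.sin_ang, hf.cos_ang]
    apply Complex.ext
    · simp [sp]
    · simp
  rw [h1, ← mul_assoc, Complex.mul_conj, Complex.normSq_eq_norm_sq, hf.u1]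
  simp

/-- **Rigidity.** -/
theorem Chart.rigid (hf : Chart f) {U : Set P} (hU : IsOpen U) {p : P} (hp : p ∈ U) {g h : ℝ → ℝ}
    (hgh : ∀ x ∈ U, ang f x = g x.1 + h x.2) :
    ∀ᶠ x in 𝓝 p, ∃ c : ℂ, fderiv ℝ f x (1, 0) = c ∧
      ∀ᶠ y in 𝓝 x, y.1 = x.1 → fderiv ℝ f y (1, 0) = c := by
  obtain ⟨r, hr, hrU⟩ := Metric.isOpen_iff.1 hU p hp
  set G : ℝ → ℝ := fun u => ang f (u, p.2) with hG
  set H : ℝ → ℝ := fun v => ang f (p.1, v) - ang f (p.1, p.2) with hH
  have hGc : Continuous G := hf.cont_ang.comp (by fun_prop)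
  have hHc : Continuous H := (hf.cont_ang.comp (by fun_prop)).sub continuous_const
  have hmem : ∀ u v : ℝ, |u - p.1| < r → |v - p.2| < r → ((u, v) : P) ∈ U := by
    intro u v h1 h2
    apply hrU
    rw [Metric.mem_ball, Prod.dist_eq, max_lt_iff, Real.dist_eq, Real.dist_eq]
    exact ⟨h1, h2⟩
  have hadd : ∀ x ∈ Metric.ball p r, ang f x = G x.1 + H x.2 := by
    intro x hx
    rw [Metric.mem_ball, Prod.dist_eq, max_lt_iff, Real.dist_eq, Real.dist_eq] at hx
    have h0 : |(0 : ℝ)| < r := by simpa using hr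
    have h1 := hgh (x.1, x.2) (hmem _ _ hx.1 hx.2)
    have h2 := hgh (x.1, p.2) (hmem _ _ hx.1 (by simpa using h0))
    have h3 := hgh (p.1, x.2) (hmem _ _ (by simpa using h0) hx.2)
    have h4 := hgh (p.1, p.2) (hmem _ _ (by simpa using h0) (by simpa using h0))
    simp only [hG, hH]
    rw [h2, h3, h4]
    have h5 : ang f x = g x.1 + h x.2 := h1
    rw [h5]
    ring
  -- the model chart
  set eg : ℝ → ℂ := fun s => Complex.exp ((G s : ℂ) * Complex.I) with heg
  set eh : ℝ → ℂ := fun s => Complex.exp (-(H s : ℂ) * Complex.I) with heh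
  have hegc : Continuous eg := by
    have : Continuous fun s => (G s : ℂ) := Complex.continuous_ofReal.comp hGc
    fun_prop
  have hehc : Continuous eh := by
    have : Continuous fun s => (H s : ℂ) := Complex.continuous_ofReal.comp hHc
    fun_prop
  set W1 : ℝ → ℂ := fun u => ∫ s in p.1..u, eg s with hW1
  set W2 : ℝ → ℂ := fun v => ∫ s in p.2..v, eh s with hW2
  have hW1d : ∀ u, HasDerivAt W1 (eg u) u := fun u =>
    intervalIntegral.integral_hasDerivAt_right (hegc.intervalIntegrable _ _)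
      hegc.aestronglyMeasurable.stronglyMeasurableAtFilter hegc.continuousAt
  have hW2d : ∀ u, HasDerivAt W2 (eh u) u := fun u =>
    intervalIntegral.integral_hasDerivAt_right (hehc.intervalIntegrable _ _)
      hehc.aestronglyMeasurable.stronglyMeasurableAtFilter hehc.continuousAt
  have hC1 : ContDiff ℝ 1 W1 := by
    rw [contDiff_one_iff_deriv]
    refine ⟨fun u => (hW1d u).differentiableAt, ?_⟩
    rw [show deriv W1 = eg from funext fun u => (hW1d u).deriv]
    exact hegc
  have hC2 : ContDiff ℝ 1 W2 := by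
    rw [contDiff_one_iff_deriv]
    refine ⟨fun u => (hW2d u).differentiableAt, ?_⟩
    rw [show deriv W2 = eh from funext fun u => (hW2d u).deriv]
    exact hehc
  set W : P → ℂ := fun x => W1 x.1 + Complex.I * W2 x.2 with hW
  have hWs : ContDiff ℝ 1 W :=
    (hC1.comp contDiff_fst).add (contDiff_const.mul (hC2.comp contDiff_snd))
  set L : P → (P →L[ℝ] ℂ) := fun x =>
    (ContinuousLinearMap.fst ℝ ℝ ℝ).smulRight (eg x.1) +
      (ContinuousLinearMap.snd ℝ ℝ ℝ).smulRight (Complex.I * eh x.2) with hL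
  have hWd : ∀ x, HasFDerivAt W (L x) x := by
    intro x
    have h1 : HasFDerivAt (fun x : P => W1 x.1)
        ((ContinuousLinearMap.fst ℝ ℝ ℝ).smulRight (eg x.1)) x := by
      have := (hW1d x.1).hasFDerivAt.comp x (hasFDerivAt_fst (𝕜 := ℝ) (p := x))
      refine this.congr_fderiv ?_
      ext <;> simp
    have h2 : HasFDerivAt (fun x : P => Complex.I * W2 x.2)
        ((ContinuousLinearMap.snd ℝ ℝ ℝ).smulRight (Complex.I * eh x.2)) x := by
      have := ((hW2d x.2).const_mul Complex.I).hasFDerivAt.comp x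
        (hasFDerivAt_snd (𝕜 := ℝ) (p := x))
      refine this.congr_fderiv ?_
      ext <;> simp
    exact h1.add h2
  have hLa : ∀ x w, L x w = (w.1 : ℂ) * eg x.1 + (w.2 : ℂ) * (Complex.I * eh x.2) := by
    intro x w
    simp only [hL, add_apply, ContinuousLinearMap.smulRight_apply, ContinuousLinearMap.coe_fst',
      ContinuousLinearMap.coe_snd', Complex.real_smul]
  -- the ratio
  set A : P → ℂ := fun x => fderiv ℝ f x (1, 0) * (eg x.1)⁻¹ with hA
  have hegn : ∀ s, ‖eg s‖ = 1 := fun s => Complex.norm_exp_ofReal_mul_I _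
  have heg0 : ∀ s, eg s ≠ 0 := fun s => Complex.exp_ne_zero _
  have hAn : ∀ x, ‖A x‖ = 1 := fun x => by
    simp only [hA, norm_mul, norm_inv, hegn, hf.u1]
    norm_num
  have hfL : ∀ x ∈ Metric.ball p r, ∀ w, fderiv ℝ f x w = A x * L x w := by
    intro x hx w
    have e : w = w.1 • (1, 0) + w.2 • (0, 1) := by ext <;> simp
    have e2 : fderiv ℝ f x w = (w.1 : ℂ) * fderiv ℝ f x (1, 0) + (w.2 : ℂ) * fderiv ℝ f x (0, 1) := by
      conv_lhs => rw [e]
      rw [map_add, map_smul, map_smul, Complex.real_smul, Complex.real_smul]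
    have e3 : Complex.exp (-((ang f x : ℝ) : ℂ) * Complex.I) = (eg x.1)⁻¹ * eh x.2 := by
      rw [hadd x hx]
      simp only [heg, heh]
      rw [← Complex.exp_neg, ← Complex.exp_add]
      congr 1
      push_cast
      ring
    rw [e2, hLa, hf.v_eq x, e3]
    simp only [hA]
    have := heg0 x.1
    field_simp
  -- invertibility
  have hinj : ∀ x ∈ Metric.ball p r, Function.Injective (L x) := by
    intro x hx
    rw [injective_iff_map_eq_zero]
    intro w hw
    have h1 : (w.1 : ℂ) + (w.2 : ℂ) * (Complex.I * ((eg x.1)⁻¹ * eh x.2)) = 0 := by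
      have h2 := hLa x w
      rw [hw] at h2
      have := heg0 x.1
      field_simp
      linear_combination -h2
    have e3 : Complex.exp (-((ang f x : ℝ) : ℂ) * Complex.I) = (eg x.1)⁻¹ * eh x.2 := by
      rw [hadd x hx]
      simp only [heg, heh]
      rw [← Complex.exp_neg, ← Complex.exp_add]
      congr 1
      push_cast
      ring
    rw [← e3, Complex.exp_mul_I, Complex.cos_neg, Complex.sin_neg, ← Complex.ofReal_cos,
      ← Complex.ofReal_sin] at h1
    have h3 := congrArg Complex.im h1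
    have h4 := congrArg Complex.re h1
    simp at h3 h4
    have hc : Real.cos (ang f x) ≠ 0 := by
      rw [hf.cos_ang]
      exact (hf.im_pos x).ne'
    have h5 : w.2 = 0 := by
      rcases h3 with h3 | h3
      · exact h3
      · exact absurd h3 hc
    rw [h5] at h4
    simp at h4
    exact Prod.ext h4 h5
  have hdim : Module.finrank ℝ P = Module.finrank ℝ ℂ := by
    rw [Module.finrank_prod, Module.finrank_self, Complex.finrank_real_complex]
  have hequiv : ∀ x ∈ Metric.ball p r, ∃ T : P ≃L[ℝ] ℂ, (T : P →L[ℝ] ℂ) = L x := by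
    intro x hx
    refine ⟨(LinearMap.linearEquivOfInjective (L x : P →ₗ[ℝ] ℂ) (hinj x hx)
      hdim).toContinuousLinearEquiv, ?_⟩
    ext <;> rfl
  have hpb : p ∈ Metric.ball p r := Metric.mem_ball_self hr
  obtain ⟨T, hT⟩ := hequiv p hpb
  have hWT : HasFDerivAt W (T : P →L[ℝ] ℂ) p := hT ▸ hWd p
  set Φ := hWs.contDiffAt.toOpenPartialHomeomorph W hWT (by simp) with hΦ
  have hΦc : (Φ : P → ℂ) = W := rfl
  have hpΦ : p ∈ Φ.source := hWs.contDiffAt.mem_toOpenPartialHomeomorph_source hWT (by simp)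
  -- a disc in the target
  have hopen : IsOpen (Φ.target ∩ Φ.symm ⁻¹' (Metric.ball p r)) :=
    Φ.isOpen_inter_preimage_symm Metric.isOpen_ball
  have hWp : W p ∈ Φ.target ∩ Φ.symm ⁻¹' (Metric.ball p r) := by
    refine ⟨Φ.map_source hpΦ, ?_⟩
    have : Φ.symm (W p) = p := Φ.left_inv hpΦ
    rw [mem_preimage, this]
    exact hpb
  obtain ⟨ρ, hρ, hball⟩ := Metric.isOpen_iff.1 hopen _ hWp
  set V := Metric.ball (W p) ρ with hV
  set F : ℂ → ℂ := fun z => f (Φ.symm z) with hF
  have hFd : ∀ z ∈ V, HasDerivAt F (A (Φ.symm z)) z := by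
    intro z hz
    obtain ⟨h1, h2⟩ := hball hz
    obtain ⟨S, hS⟩ := hequiv _ h2
    have h3 : HasFDerivAt Φ (S : P →L[ℝ] ℂ) (Φ.symm z) := hS ▸ hWd _
    have h4 := Φ.hasFDerivAt_symm h1 h3
    have h5 : HasFDerivAt f (fderiv ℝ f (Φ.symm z)) (Φ.symm z) :=
      (hf.smooth.differentiable (by simp) _).hasFDerivAt
    have h6 := h5.comp z h4
    rw [hasDerivAt_iff_hasFDerivAt]
    refine hasFDerivAt_of_restrictScalars ℝ h6 ?_
    ext
    · simp only [ContinuousLinearMap.coe_restrictScalars', ContinuousLinearMap.comp_apply]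
      rw [hfL _ h2, ← hS]
      simp [mul_comm]
  have hder : ∀ z ∈ V, deriv F z = A (Φ.symm z) := fun z hz => (hFd z hz).deriv
  have hVo : IsOpen V := Metric.isOpen_ball
  have hFdiff : DifferentiableOn ℂ F V := fun z hz =>
    (hFd z hz).differentiableAt.differentiableWithinAt
  have hdd : DifferentiableOn ℂ (deriv F) V := hFdiff.deriv hVo
  have hWpV : W p ∈ V := Metric.mem_ball_self hρ
  have hmax : IsMaxOn (norm ∘ deriv F) V (W p) := by
    intro z hz
    simp only [Function.comp_apply, mem_ofPred_eq]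
    rw [hder z hz, hder _ hWpV, hAn, hAn]
  have hconst := Complex.eqOn_of_isPreconnected_of_isMaxOn_norm
    (convex_ball (W p) ρ).isPreconnected hVo hdd hWpV hmax
  set c0 := deriv F (W p) with hc0
  have hloc : ∀ᶠ x in 𝓝 p, x ∈ Φ.source ∩ W ⁻¹' V :=
    (Φ.isOpen_inter_preimage hVo).mem_nhds ⟨hpΦ, hWpV⟩
  have hval : ∀ x ∈ Φ.source ∩ W ⁻¹' V, fderiv ℝ f x (1, 0) = c0 * eg x.1 := by
    rintro x ⟨h1, h2⟩
    have h3 : Φ.symm (W x) = x := Φ.left_inv h1
    have h4 := hconst h2
    simp only [Function.const_apply] at h4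
    rw [hder _ h2, h3] at h4
    have h5 : A x = c0 := h4
    rw [← h5]
    simp only [hA]
    rw [mul_assoc, inv_mul_cancel₀ (heg0 _), mul_one]
  refine hloc.mono fun x hx => ⟨_, rfl, ?_⟩
  have h1 : ∀ᶠ y in 𝓝 x, y ∈ Φ.source ∩ W ⁻¹' V := (Φ.isOpen_inter_preimage hVo).mem_nhds hx
  refine h1.mono fun y hy hxy => ?_
  rw [hval y hy, hval x hx, hxy]

end Pool.Agent.R743.Cheb
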