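import Mathlib

/-!
One corrugation step: a smooth map of the plane with periodic differential and `|f_e| < 1` is changed,
by an arbitrarily small amount in `C⁰` and in the derivative along `e'`, so that `1 - |f_e|²` becomes
almost the prescribed constant.
-/

set_option autoImplicit false

namespace Pool.Agent.R743.Cheb

open Real Set Filter Topology
open scoped ContDiff

/-- the parameter plane -/
abbrev P : Type := ℝ × ℝ

/-- the function is one-periodic in both variables -/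
def Per {F : Type*} (h : P → F) : Prop :=
  (∀ x, h (x + (1, 0)) = h x) ∧ ∀ x, h (x + (0, 1)) = h x

theorem Per.bound {F : Type*} [NormedAddCommGroup F] {h : P → F} (hp : Per h) (hc : Continuous h) :
    ∃ C, 0 ≤ C ∧ ∀ x, ‖h x‖ ≤ C := by
  have hK : IsCompact (Icc (0 : ℝ) 1 ×ˢ Icc (0 : ℝ) 1) := isCompact_Icc.prod isCompact_Icc
  obtain ⟨C, hC⟩ := hK.exists_bound_of_continuousOn hc.continuousOn
  refine ⟨C, (norm_nonneg _).trans (hC (0, 0) (by simp)), ?_⟩
  rintro ⟨u, v⟩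
  have h1 : Function.Periodic (fun u => h (u, v)) 1 := by
    intro u
    have := hp.1 (u, v)
    simpa using this
  obtain ⟨u', hu', e1⟩ := h1.exists_mem_Ico₀ one_pos u
  have h2 : Function.Periodic (fun v => h (u', v)) 1 := by
    intro v
    have := hp.2 (u', v)
    simpa using this
  obtain ⟨v', hv', e2⟩ := h2.exists_mem_Ico₀ one_pos v
  rw [show h (u, v) = h (u', v') from e1.trans e2]
  exact hC _ ⟨⟨hu'.1, hu'.2.le⟩, ⟨hv'.1, hv'.2.le⟩⟩

theorem Per.fderiv {F : Type*} [NormedAddCommGroup F] [NormedSpace ℝ F] {h : P → F} (hp : Per h) :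
    Per (fderiv ℝ h) := by
  constructor
  · intro x
    have e : (fun y => h (y + (1, 0))) = h := funext hp.1
    rw [← fderiv_comp_add_right, e]
  · intro x
    have e : (fun y => h (y + (0, 1))) = h := funext hp.2
    rw [← fderiv_comp_add_right, e]

/-- smooth maps with periodic differential -/
structure Good (f : P → ℂ) : Prop where
  smooth : ContDiff ℝ ∞ f
  per : Per (fderiv ℝ f)

theorem Good.dir {f : P → ℂ} (hf : Good f) (e : P) : ContDiff ℝ ∞ (fun x => fderiv ℝ f x e) :=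
  (hf.smooth.fderiv_right (m := ∞) (by simp)).clm_apply contDiff_const

theorem Good.dir_per {f : P → ℂ} (hf : Good f) (e : P) : Per (fun x => fderiv ℝ f x e) :=
  ⟨fun x => by simp only [hf.per.1 x], fun x => by simp only [hf.per.2 x]⟩

theorem Good.add {f φ : P → ℂ} (hf : Good f) (h1 : ContDiff ℝ ∞ φ) (h2 : Per φ) :
    Good (fun x => f x + φ x) := by
  refine ⟨hf.smooth.add h1, ?_⟩
  have e : ∀ x, fderiv ℝ (fun x => f x + φ x) x = fderiv ℝ f x + fderiv ℝ φ x := fun x =>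
    fderiv_fun_add (hf.smooth.differentiable (by simp) x) (h1.differentiable (by simp) x)
  constructor
  · intro x
    rw [e, e, hf.per.1 x, h2.fderiv.1 x]
  · intro x
    rw [e, e, hf.per.2 x, h2.fderiv.2 x]

/-- `|‖z + η‖² - ‖z‖²| ≤ 4 ε` -/
theorem sq_close {z η : ℂ} {ε : ℝ} (hz : ‖z‖ ≤ 3 / 2) (hη : ‖η‖ ≤ ε) (hε : ε ≤ 1) :
    |‖z + η‖ ^ 2 - ‖z‖ ^ 2| ≤ 4 * ε := by
  have h1 := norm_add_le z η
  have h2 : ‖z‖ ≤ ‖z + η‖ + ‖η‖ := by
    have := norm_sub_le (z + η) η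
    simpa using this
  have h3 := norm_nonneg z
  have h4 := norm_nonneg η
  have h5 := norm_nonneg (z + η)
  rw [abs_le]
  constructor <;> nlinarith

section step

variable (ℓ : P →L[ℝ] ℝ) (N : ℕ) (A B : P → ℂ)

/-- the corrugation -/
noncomputable def corr (x : P) : ℂ :=
  ((1 / N : ℝ) : ℂ) * (((Real.sin (2 * π * N * ℓ x) : ℝ) : ℂ) * A x +
    ((Real.sin (4 * π * N * ℓ x) : ℝ) : ℂ) * B x)

variable {ℓ N A B}

theorem corr_smooth (hA : ContDiff ℝ ∞ A) (hB : ContDiff ℝ ∞ B) : ContDiff ℝ ∞ (corr ℓ N A B) := by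
  unfold corr
  have h1 : ContDiff ℝ ∞ fun x : P => ((Real.sin (2 * π * N * ℓ x) : ℝ) : ℂ) :=
    Complex.ofRealCLM.contDiff.comp (Real.contDiff_sin.comp (contDiff_const.mul ℓ.contDiff))
  have h2 : ContDiff ℝ ∞ fun x : P => ((Real.sin (4 * π * N * ℓ x) : ℝ) : ℂ) :=
    Complex.ofRealCLM.contDiff.comp (Real.contDiff_sin.comp (contDiff_const.mul ℓ.contDiff))
  exact contDiff_const.mul ((h1.mul hA).add (h2.mul hB))

theorem corr_per (hA : Per A) (hB : Per B) {k l : ℤ} (hk : ℓ (1, 0) = k) (hl : ℓ (0, 1) = l) :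
    Per (corr ℓ N A B) := by
  have key : ∀ (x : P) (m : ℤ), Real.sin (2 * π * N * (ℓ x + m)) = Real.sin (2 * π * N * ℓ x) := by
    intro x m
    have : 2 * π * N * (ℓ x + m) = 2 * π * N * ℓ x + ((N * m : ℤ) : ℝ) * (2 * π) := by
      push_cast; ring
    rw [this, Real.sin_add_int_mul_two_pi]
  have key2 : ∀ (x : P) (m : ℤ), Real.sin (4 * π * N * (ℓ x + m)) = Real.sin (4 * π * N * ℓ x) := by
    intro x m
    have : 4 * π * N * (ℓ x + m) = 4 * π * N * ℓ x + ((2 * N * m : ℤ) : ℝ) * (2 * π) := by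
      push_cast; ring
    rw [this, Real.sin_add_int_mul_two_pi]
  constructor
  · intro x
    unfold corr
    rw [map_add, hk, key, key2, hA.1, hB.1]
  · intro x
    unfold corr
    rw [map_add, hl, key, key2, hA.2, hB.2]

theorem corr_deriv (hA : ContDiff ℝ ∞ A) (hB : ContDiff ℝ ∞ B) (hN : 0 < N) (x w : P) :
    fderiv ℝ (corr ℓ N A B) x w =
      ((Real.cos (2 * π * N * ℓ x) * ℓ w : ℝ) : ℂ) * ((2 * π : ℝ) * A x) +
      ((Real.cos (4 * π * N * ℓ x) * ℓ w : ℝ) : ℂ) * ((4 * π : ℝ) * B x) +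
      ((1 / N : ℝ) : ℂ) * (((Real.sin (2 * π * N * ℓ x) : ℝ) : ℂ) * fderiv ℝ A x w +
        ((Real.sin (4 * π * N * ℓ x) : ℝ) : ℂ) * fderiv ℝ B x w) := by
  have hA' : HasFDerivAt A (fderiv ℝ A x) x := (hA.differentiable (by simp) x).hasFDerivAt
  have hB' : HasFDerivAt B (fderiv ℝ B x) x := (hB.differentiable (by simp) x).hasFDerivAt
  have hs : ∀ c : ℝ, HasFDerivAt (fun x : P => ((Real.sin (c * ℓ x) : ℝ) : ℂ))
      (Complex.ofRealCLM.comp ((Real.cos (c * ℓ x)) • (c • ℓ))) x := by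
    intro c
    have h1 : HasFDerivAt (fun x : P => c * ℓ x) (c • ℓ) x := ℓ.hasFDerivAt.const_mul c
    have h2 := h1.sin
    exact Complex.ofRealCLM.hasFDerivAt.comp x h2
  have h := (((hs (2 * π * N)).mul hA').add ((hs (4 * π * N)).mul hB')).const_mul
    (((1 / N : ℝ) : ℂ))
  have h' : HasFDerivAt (corr ℓ N A B) _ x := h
  rw [h'.fderiv]
  have hN' : (N : ℂ) ≠ 0 := by exact_mod_cast hN.ne'
  simp only [smul_apply, add_apply,
    ContinuousLinearMap.comp_apply, Complex.ofRealCLM_apply, smul_eq_mul]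
  push_cast
  field_simp
  ring

end step

/-- **One corrugation step.** -/
theorem step {ℓ : P →L[ℝ] ℝ} {e e' : P} (he : ℓ e = 1) (he' : ℓ e' = 0) {k l : ℤ}
    (hk : ℓ (1, 0) = k) (hl : ℓ (0, 1) = l) {f : P → ℂ} (hf : Good f) {δ D ε : ℝ}
    (hδ : 0 < δ) (hD : D ≤ 1) (hlo : ∀ x, δ < 1 - ‖fderiv ℝ f x e‖ ^ 2)
    (hhi : ∀ x, 1 - ‖fderiv ℝ f x e‖ ^ 2 ≤ δ + D) (hr : ∀ x, 1 / 2 ≤ ‖fderiv ℝ f x e‖)
    (hε : 0 < ε) (hε1 : ε ≤ 1) :
    ∃ g : P → ℂ, Good g ∧ (∀ x, ‖g x - f x‖ ≤ ε) ∧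
      (∀ x, ‖fderiv ℝ g x e' - fderiv ℝ f x e'‖ ≤ ε) ∧
      (∀ x, ‖fderiv ℝ g x e - fderiv ℝ f x e‖ ≤ √(2 * D) + D + ε) ∧
      ∀ x, |(1 - ‖fderiv ℝ g x e‖ ^ 2) - δ| ≤ D ^ 2 + 4 * ε := by
  set F : P → ℂ := fun x => fderiv ℝ f x e with hF
  have hFs : ContDiff ℝ ∞ F := hf.dir e
  have hFp : Per F := hf.dir_per e
  have hF0 : ∀ x, F x ≠ 0 := fun x h => by
    have := hr x
    rw [show fderiv ℝ f x e = F x from rfl, h, norm_zero] at this
    norm_num at this
  set r : P → ℝ := fun x => ‖F x‖ with hrdef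
  have hrs : ContDiff ℝ ∞ r := hFs.norm ℝ hF0
  have hrp : Per r := ⟨fun x => by simp only [hrdef, hFp.1 x], fun x => by simp only [hrdef, hFp.2 x]⟩
  have hr0 : ∀ x, 0 < r x := fun x => norm_pos_iff.2 (hF0 x)
  set q : P → ℝ := fun x => 1 - r x ^ 2 - δ with hq
  have hqs : ContDiff ℝ ∞ q := (contDiff_const.sub (hrs.pow 2)).sub contDiff_const
  have hqp : Per q := ⟨fun x => by simp only [hq, hrp.1 x], fun x => by simp only [hq, hrp.2 x]⟩
  have hq0 : ∀ x, 0 < q x := fun x => by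
    have := hlo x
    simp only [hq]
    linarith
  have hqD : ∀ x, q x ≤ D := fun x => by
    have := hhi x
    simp only [hq]
    linarith
  have hD0 : 0 < D := (hq0 0).trans_le (hqD 0)
  set a : P → ℝ := fun x => √(2 * q x) with ha
  have has : ContDiff ℝ ∞ a := (contDiff_const.mul hqs).sqrt fun x => by
    have := hq0 x
    positivity
  have hap : Per a := ⟨fun x => by simp only [ha, hqp.1 x], fun x => by simp only [ha, hqp.2 x]⟩
  set b : P → ℝ := fun x => -(q x / (2 * r x)) with hb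
  have hbs : ContDiff ℝ ∞ b := (hqs.div (contDiff_const.mul hrs) fun x => by
    have := hr0 x
    positivity).neg
  have hbp : Per b := ⟨fun x => by simp only [hb, hqp.1 x, hrp.1 x],
    fun x => by simp only [hb, hqp.2 x, hrp.2 x]⟩
  set τ : P → ℂ := fun x => F x * (((r x)⁻¹ : ℝ) : ℂ) with hτ
  have hτs : ContDiff ℝ ∞ τ :=
    hFs.mul (Complex.ofRealCLM.contDiff.comp (hrs.inv fun x => (hr0 x).ne'))
  have hτp : Per τ := ⟨fun x => by simp only [hτ, hFp.1 x, hrp.1 x],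
    fun x => by simp only [hτ, hFp.2 x, hrp.2 x]⟩
  have hτn : ∀ x, ‖τ x‖ = 1 := fun x => by
    simp only [hτ, norm_mul, Complex.norm_real, norm_inv, hrdef, norm_norm]
    exact mul_inv_cancel₀ (hr0 x).ne'
  have hFτ : ∀ x, F x = (r x : ℂ) * τ x := fun x => by
    have : (r x : ℂ) ≠ 0 := by exact_mod_cast (hr0 x).ne'
    simp only [hτ]
    push_cast
    field_simp
  set A : P → ℂ := fun x => ((a x / (2 * π) : ℝ) : ℂ) * (Complex.I * τ x) with hA
  have hAs : ContDiff ℝ ∞ A := (Complex.ofRealCLM.contDiff.comp (has.div_const _)).mul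
    (contDiff_const.mul hτs)
  have hAp : Per A := ⟨fun x => by simp only [hA, hap.1 x, hτp.1 x],
    fun x => by simp only [hA, hap.2 x, hτp.2 x]⟩
  set B : P → ℂ := fun x => ((b x / (4 * π) : ℝ) : ℂ) * τ x with hB
  have hBs : ContDiff ℝ ∞ B := (Complex.ofRealCLM.contDiff.comp (hbs.div_const _)).mul hτs
  have hBp : Per B := ⟨fun x => by simp only [hB, hbp.1 x, hτp.1 x],
    fun x => by simp only [hB, hbp.2 x, hτp.2 x]⟩
  -- bounds
  obtain ⟨C1, hC1, b1⟩ := hAp.bound hAs.continuous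
  obtain ⟨C2, hC2, b2⟩ := hBp.bound hBs.continuous
  obtain ⟨C3, hC3, b3⟩ := hAp.fderiv.bound (hAs.continuous_fderiv (by simp))
  obtain ⟨C4, hC4, b4⟩ := hBp.fderiv.bound (hBs.continuous_fderiv (by simp))
  set C : ℝ := C1 + C2 + (C3 + C4) * (‖e‖ + ‖e'‖) with hC
  have hC0 : 0 ≤ C := by positivity
  obtain ⟨N, hN⟩ := exists_nat_gt (C / ε)
  have hN0 : 0 < N := by
    have : (0 : ℝ) < N := lt_of_le_of_lt (by positivity) hN
    exact_mod_cast this
  have hN0' : (0 : ℝ) < N := by exact_mod_cast hN0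
  have hCN : 1 / N * C ≤ ε := by
    rw [div_lt_iff₀ hε] at hN
    rw [one_div, inv_mul_le_iff₀ hN0']
    exact hN.le
  have hsm : ∀ (s t : ℝ) (z w : ℂ) (K : ℝ), |s| ≤ 1 → |t| ≤ 1 → ‖z‖ + ‖w‖ ≤ K → K ≤ C →
      ‖((1 / N : ℝ) : ℂ) * ((s : ℂ) * z + (t : ℂ) * w)‖ ≤ ε := by
    intro s t z w K hs ht hzw hK
    rw [norm_mul, Complex.norm_real, Real.norm_of_nonneg (by positivity)]
    refine le_trans ?_ hCN
    apply mul_le_mul_of_nonneg_left _ (by positivity)
    refine le_trans (norm_add_le _ _) ?_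
    rw [norm_mul, norm_mul, Complex.norm_real, Complex.norm_real, Real.norm_eq_abs,
      Real.norm_eq_abs]
    nlinarith [norm_nonneg z, norm_nonneg w]
  have hsin : ∀ t : ℝ, |Real.sin t| ≤ 1 := Real.abs_sin_le_one
  set φ := corr ℓ N A B with hφ
  have hφs : ContDiff ℝ ∞ φ := corr_smooth hAs hBs
  have hφp : Per φ := corr_per hAp hBp hk hl
  have hφ0 : ∀ x, ‖φ x‖ ≤ ε := fun x =>
    hsm _ _ _ _ (C1 + C2) (hsin _) (hsin _) (add_le_add (b1 x) (b2 x)) (by
      have : 0 ≤ (C3 + C4) * (‖e‖ + ‖e'‖) := by positivity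
      linarith)
  have hrest : ∀ (x w : P), ‖w‖ ≤ ‖e‖ + ‖e'‖ →
      ‖((1 / N : ℝ) : ℂ) * (((Real.sin (2 * π * N * ℓ x) : ℝ) : ℂ) * fderiv ℝ A x w +
        ((Real.sin (4 * π * N * ℓ x) : ℝ) : ℂ) * fderiv ℝ B x w)‖ ≤ ε := by
    intro x w hw
    refine hsm _ _ _ _ ((C3 + C4) * (‖e‖ + ‖e'‖)) (hsin _) (hsin _) ?_ (by linarith)
    have h1 := (fderiv ℝ A x).le_opNorm w
    have h2 := (fderiv ℝ B x).le_opNorm w
    have h3 := mul_le_mul (b3 x) hw (norm_nonneg _) hC3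
    have h4 := mul_le_mul (b4 x) hw (norm_nonneg _) hC4
    linarith
  have hgd : ∀ x w, fderiv ℝ (fun x => f x + φ x) x w = fderiv ℝ f x w + fderiv ℝ φ x w := by
    intro x w
    rw [fderiv_fun_add (hf.smooth.differentiable (by simp) x) (hφs.differentiable (by simp) x)]
    rfl
  -- main term along `e`
  have hmain : ∀ x, fderiv ℝ (fun x => f x + φ x) x e =
      τ x * ((r x + b x * Real.cos (4 * π * N * ℓ x) : ℝ) +
        (a x * Real.cos (2 * π * N * ℓ x) : ℝ) * Complex.I) +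
      ((1 / N : ℝ) : ℂ) * (((Real.sin (2 * π * N * ℓ x) : ℝ) : ℂ) * fderiv ℝ A x e +
        ((Real.sin (4 * π * N * ℓ x) : ℝ) : ℂ) * fderiv ℝ B x e) := by
    intro x
    rw [hgd, hφ, corr_deriv hAs hBs hN0, he, show fderiv ℝ f x e = F x from rfl, hFτ x]
    have hπ : (π : ℂ) ≠ 0 := by exact_mod_cast Real.pi_ne_zero
    simp only [hA, hB]
    push_cast
    field_simp
    ring
  have hmn : ∀ x, ‖τ x * ((r x + b x * Real.cos (4 * π * N * ℓ x) : ℝ) +
        (a x * Real.cos (2 * π * N * ℓ x) : ℝ) * Complex.I)‖ ^ 2 =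
      1 - δ + (b x * Real.cos (4 * π * N * ℓ x)) ^ 2 := by
    intro x
    rw [norm_mul, hτn, one_mul, ← Complex.normSq_eq_norm_sq, Complex.normSq_add_mul_I]
    have h1 : Real.cos (4 * π * N * ℓ x) = 2 * Real.cos (2 * π * N * ℓ x) ^ 2 - 1 := by
      rw [← Real.cos_two_mul]
      congr 1
      ring
    have h2 : a x ^ 2 = 2 * q x := Real.sq_sqrt (by have := hq0 x; positivity)
    have h3 : 2 * r x * b x = -q x := by
      simp only [hb]
      have := (hr0 x).ne'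
      field_simp
    have h4 : 1 - r x ^ 2 - δ = q x := rfl
    rw [mul_pow (a x), h2]
    have h5 : (r x + b x * Real.cos (4 * π * N * ℓ x)) ^ 2 = r x ^ 2 +
        (2 * r x * b x) * Real.cos (4 * π * N * ℓ x) + (b x * Real.cos (4 * π * N * ℓ x)) ^ 2 := by
      ring
    rw [h5, h3, h1]
    have h6 : r x ^ 2 = 1 - δ - q x := by rw [← h4]; ring
    rw [h6]
    ring
  have hbD : ∀ x, |b x| ≤ D := by
    intro x
    have h1 := hq0 x
    have h2 := hqD x
    have h3 : 1 / 2 ≤ r x := hr x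
    simp only [hb, abs_neg]
    rw [abs_of_nonneg (by positivity), div_le_iff₀ (by positivity)]
    nlinarith
  have hbc : ∀ x, |b x * Real.cos (4 * π * N * ℓ x)| ≤ D := by
    intro x
    rw [abs_mul]
    have h1 := hbD x
    have h2 := Real.abs_cos_le_one (4 * π * N * ℓ x)
    nlinarith [abs_nonneg (b x), abs_nonneg (Real.cos (4 * π * N * ℓ x))]
  refine ⟨fun x => f x + φ x, hf.add hφs hφp, fun x => by simpa using hφ0 x, ?_, ?_, ?_⟩
  · intro x
    rw [hgd, hφ, corr_deriv hAs hBs hN0, he']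
    simp only [mul_zero, Complex.ofReal_zero, zero_mul, zero_add, add_sub_cancel_left]
    exact hrest x e' (by linarith [norm_nonneg e])
  · intro x
    rw [hmain, show fderiv ℝ f x e = F x from rfl, hFτ x]
    have h1 : τ x * ((r x + b x * Real.cos (4 * π * N * ℓ x) : ℝ) +
        (a x * Real.cos (2 * π * N * ℓ x) : ℝ) * Complex.I) +
      ((1 / N : ℝ) : ℂ) * (((Real.sin (2 * π * N * ℓ x) : ℝ) : ℂ) * fderiv ℝ A x e +
        ((Real.sin (4 * π * N * ℓ x) : ℝ) : ℂ) * fderiv ℝ B x e) - (r x : ℂ) * τ x =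
      τ x * (((a x * Real.cos (2 * π * N * ℓ x) : ℝ) : ℂ) * Complex.I) +
      τ x * ((b x * Real.cos (4 * π * N * ℓ x) : ℝ) : ℂ) +
      ((1 / N : ℝ) : ℂ) * (((Real.sin (2 * π * N * ℓ x) : ℝ) : ℂ) * fderiv ℝ A x e +
        ((Real.sin (4 * π * N * ℓ x) : ℝ) : ℂ) * fderiv ℝ B x e) := by
      push_cast
      ring
    rw [h1]
    refine (norm_add₃_le).trans (add_le_add (add_le_add ?_ ?_) (hrest x e (by
      linarith [norm_nonneg e'])))
    · rw [norm_mul, hτn, one_mul, norm_mul, Complex.norm_I, mul_one, Complex.norm_real,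
        Real.norm_eq_abs, abs_mul]
      have h2 : |a x| ≤ √(2 * D) := by
        rw [abs_of_nonneg (Real.sqrt_nonneg _)]
        exact Real.sqrt_le_sqrt (by have := hqD x; linarith)
      have h3 := Real.abs_cos_le_one (2 * π * N * ℓ x)
      nlinarith [abs_nonneg (a x), abs_nonneg (Real.cos (2 * π * N * ℓ x)), Real.sqrt_nonneg (2 * D)]
    · rw [norm_mul, hτn, one_mul, Complex.norm_real, Real.norm_eq_abs]
      exact hbc x
  · intro x
    rw [hmain]
    set z := τ x * ((r x + b x * Real.cos (4 * π * N * ℓ x) : ℝ) +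
        (a x * Real.cos (2 * π * N * ℓ x) : ℝ) * Complex.I) with hz
    set η := ((1 / N : ℝ) : ℂ) * (((Real.sin (2 * π * N * ℓ x) : ℝ) : ℂ) * fderiv ℝ A x e +
        ((Real.sin (4 * π * N * ℓ x) : ℝ) : ℂ) * fderiv ℝ B x e) with hη
    have h1 : ‖z‖ ^ 2 = 1 - δ + (b x * Real.cos (4 * π * N * ℓ x)) ^ 2 := hmn x
    have h2 : (b x * Real.cos (4 * π * N * ℓ x)) ^ 2 ≤ D ^ 2 := by
      rw [← sq_abs]
      exact pow_le_pow_left₀ (abs_nonneg _) (hbc x) 2
    have h3 : ‖z‖ ≤ 3 / 2 := by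
      nlinarith [norm_nonneg z]
    have h4 := sq_close h3 (hrest x e (by linarith [norm_nonneg e'])) hε1
    rw [abs_le] at h4 ⊢
    have h5 := sq_nonneg (b x * Real.cos (4 * π * N * ℓ x))
    constructor
    · linarith [h4.1, h4.2]
    · linarith [h4.1, h4.2]

end Pool.Agent.R743.Cheb
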